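import Pool.Agent.Helper38.RS.Asm
import Pool.Agent.Helper17.RSP.LBD
import Pool.Agent.Helper17.RSP.HLF
import Pool.Agent.Helper58.RSP.EUL
import Pool.Agent.Helper11.LE.Goals2

/-!
# Project LE (MP_fc6b1e_nt): the lemma `L_CHB`
-/

namespace Pool.Agent.Helper24.LE

open NumberField Polynomial Module IsDedekindDomain TensorProduct
open Pool.Agent.Helper51.RP Pool.Agent.Helper38.RSP Pool.Agent.Helper17.RSP

theorem sp_lbd' : SP_LBD :=
  Pool.Agent.Helper17.RSP.sp_lbd Pool.Agent.Helper38.RS.s_unf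
    Pool.Agent.Helper38.RS.s_par Pool.Agent.Helper3.RS.s_rep
    Pool.Agent.Helper38.RS.s_zet

theorem re_std {p : ℕ} [NeZero p] (x : ZMod p) :
    (ZMod.stdAddChar x : ℂ).re = Real.cos (2 * Real.pi * (x.val : ℝ) / p) := by
  rw [ZMod.stdAddChar_apply, ZMod.toCircle_apply]
  have h : (2 * Real.pi * Complex.I * (x.val : ℂ) / (p : ℂ) : ℂ) =
      ((2 * Real.pi * (x.val : ℝ) / p : ℝ) : ℂ) * Complex.I := by
    push_cast
    ring
  rw [h, Complex.exp_ofReal_mul_I_re]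

theorem l_chb : Pool.Agent.Helper11.LE.L_CHB := by
  classical
  intro p _ F _ _ _ 𝔪 ψ hψ
  have hj : (1 : ZMod p) ≠ 0 := one_ne_zero
  obtain ⟨CE, hCE⟩ := Pool.Agent.Helper58.RSP.sp_eul F
  obtain ⟨C, hC⟩ := sp_lbd' F 𝔪 (chj p 𝔪 ψ 1) (isCh_chj hψ hj)
  refine ⟨Real.log C + CE, fun s hs hs2 => ?_⟩
  obtain ⟨h4, h5⟩ := hCE (chj p 𝔪 ψ 1) (chj_top hψ 1) (chj_mul hψ 1) (chj_le 1) s hs
  have h6 : Real.log ‖Lc (chj p 𝔪 ψ 1) s‖ ≤ Real.log C :=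
    Real.log_le_log (norm_pos_iff.2 h4) (hC s hs hs2)
  have h7 := (abs_le.1 h5).1
  have h8 : ∑' v : {v : HeightOneSpectrum (𝓞 F) // v.asIdeal ⊔ 𝔪 = ⊤},
      Real.cos (2 * Real.pi * ((ψ v.1.asIdeal).val : ℝ) / p) *
        (Ideal.absNorm v.1.asIdeal : ℝ) ^ (-s) =
      ∑' v : HeightOneSpectrum (𝓞 F), (chj p 𝔪 ψ 1 v.asIdeal).re *
        (Ideal.absNorm v.asIdeal : ℝ) ^ (-s) := by
    have h9 := tsum_subtype {v : HeightOneSpectrum (𝓞 F) | v.asIdeal ⊔ 𝔪 = ⊤}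
      (fun v : HeightOneSpectrum (𝓞 F) =>
        Real.cos (2 * Real.pi * ((ψ v.asIdeal).val : ℝ) / p) *
        (Ideal.absNorm v.asIdeal : ℝ) ^ (-s))
    refine Eq.trans h9 (tsum_congr fun v => ?_)
    by_cases hv : v.asIdeal ⊔ 𝔪 = ⊤
    · rw [Set.indicator_of_mem (show v ∈ {v : HeightOneSpectrum (𝓞 F) | v.asIdeal ⊔ 𝔪 = ⊤}
        from hv)]
      unfold chj
      rw [if_pos ⟨v.ne_bot, hv⟩, one_mul, re_std]
    · rw [Set.indicator_of_notMem (show v ∉ {v : HeightOneSpectrum (𝓞 F) | v.asIdeal ⊔ 𝔪 = ⊤}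
        from hv)]
      unfold chj
      rw [if_neg (fun h => hv h.2), Complex.zero_re, zero_mul]
  rw [h8]
  linarith

end Pool.Agent.Helper24.LE
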